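import Pool.Agent.H628R3.RO.Defs

set_option autoImplicit false

open MeasureTheory Finset
open Pool.Agent.H628R3.RO (randomOracle coin)

namespace Pool.Agent.H54.RQ

theorem coin_singleton (b : Bool) : coin {b} = (2⁻¹ : ENNReal) := by
  unfold coin
  rw [Measure.add_apply, Measure.smul_apply, Measure.smul_apply, Measure.dirac_apply' _ (measurableSet_singleton b),
    Measure.dirac_apply' _ (measurableSet_singleton b)]
  cases b <;> simp

theorem cyl {N : ℕ} (e : Fin N → List Bool) (he : Function.Injective e) (y : Fin N → Bool) :
    randomOracle {A : List Bool → Bool | ∀ i, A (e i) = y i} = (2⁻¹ : ENNReal) ^ N := by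
  classical
  have h1 : {A : List Bool → Bool | ∀ i, A (e i) = y i} =
      ((Finset.univ.image e : Finset (List Bool)) : Set (List Bool)).pi
        (fun q => {b : Bool | ∀ i, e i = q → b = y i}) := by
    ext A
    simp only [Set.mem_ofPred_eq, Set.mem_pi, Finset.coe_image, Finset.coe_univ, Set.image_univ,
      Set.mem_range]
    constructor
    · rintro h q ⟨i, rfl⟩ j hj
      rw [he hj]
      exact h i
    · intro h i
      exact h (e i) ⟨i, rfl⟩ i rfl
  rw [h1]
  unfold randomOracle
  rw [Measure.infinitePi_pi]
  · rw [Finset.prod_image (fun i _ j _ h => he h)]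
    have h2 : ∀ i ∈ (Finset.univ : Finset (Fin N)),
        coin {b : Bool | ∀ j, e j = e i → b = y j} = (2⁻¹ : ENNReal) := by
      intro i _
      have h3 : {b : Bool | ∀ j, e j = e i → b = y j} = {y i} := by
        ext b
        simp only [Set.mem_ofPred_eq, Set.mem_singleton_iff]
        constructor
        · intro h; exact h i rfl
        · intro h j hj
          rw [he hj]; exact h
      rw [h3, coin_singleton]
    rw [Finset.prod_congr rfl h2, Finset.prod_const, Finset.card_univ, Fintype.card_fin]
  · intro q _
    exact MeasurableSet.of_discrete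

theorem main {N : ℕ} (e : Fin N → List Bool) (he : Function.Injective e)
    (P : (Fin N → Bool) → Prop) [DecidablePred P] :
    MeasurableSet {A : List Bool → Bool | P (fun i => A (e i))} ∧
    randomOracle.real {A : List Bool → Bool | P (fun i => A (e i))} =
      (∑ y : Fin N → Bool, if P y then (1 : ℝ) else 0) / 2 ^ N := by
  have hf : Measurable (fun (A : List Bool → Bool) (i : Fin N) => A (e i)) :=
    measurable_pi_lambda _ fun i => measurable_pi_apply (e i)
  have hm : ∀ S : Set (Fin N → Bool),
      MeasurableSet {A : List Bool → Bool | (fun i => A (e i)) ∈ S} := fun S =>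
    hf (MeasurableSet.of_discrete (s := S))
  refine ⟨hm {y | P y}, ?_⟩
  have h2 : {A : List Bool → Bool | P (fun i => A (e i))} =
      ⋃ y ∈ Finset.univ.filter P, {A : List Bool → Bool | ∀ i, A (e i) = y i} := by
    ext A
    simp only [Set.mem_ofPred_eq, Set.mem_iUnion, Finset.mem_filter, Finset.mem_univ, true_and,
      exists_prop]
    constructor
    · intro h; exact ⟨_, h, fun i => rfl⟩
    · rintro ⟨y, hy, h⟩
      have : (fun i => A (e i)) = y := funext h
      rw [this]; exact hy
  have hm2 : ∀ y : Fin N → Bool, MeasurableSet {A : List Bool → Bool | ∀ i, A (e i) = y i} := by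
    intro y
    have := hm {y}
    simp only [Set.mem_singleton_iff, funext_iff] at this
    exact this
  rw [h2, Measure.real, measure_biUnion_finset]
  · simp only [cyl e he]
    rw [Finset.sum_const, nsmul_eq_mul, ENNReal.toReal_mul, ENNReal.toReal_pow,
      ENNReal.toReal_inv, Finset.sum_ite, Finset.sum_const_zero, add_zero, Finset.sum_const,
      nsmul_eq_mul, mul_one]
    simp [div_eq_mul_inv]
  · intro y _ z _ hyz
    rw [Function.onFun, Set.disjoint_left]
    intro A hA hA'
    apply hyz
    funext i
    exact (hA i).symm.trans (hA' i)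
  · intro y _
    exact hm2 y

end Pool.Agent.H54.RQ
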