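import Pool.Agent.H889R3.RQ.Stmts
import Pool.Agent.H54.RQ.C1a

set_option autoImplicit false

namespace Pool.Agent.H54.RQ

theorem c1 : Pool.Agent.H889R3.RQ.St_C1 := by
  intro N e he P inst
  have h := @Pool.Agent.H54.RQ.main N e he P inst
  unfold Pool.Agent.H572R2.EE
  exact h

end Pool.Agent.H54.RQ
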